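import Pool.Agent.Helper74.UB.Goals4

/-!
# UB, packet BONUS
-/

namespace Pool.Agent.Helper89.UB

open Finset Equiv Helper28.VF Pool.Agent.Helper74.UB
open scoped Classical

section
variable {D V E F : Type} [Fintype D] [Fintype V] [Fintype E] [Fintype F] {M : PM D V E F}

theorem fc_ph' (d : D) : M.fc (ph M d) = M.fc d :=
  (M.fc_iff _ _).2 ⟨-1, by simp [ph, mul_inv_rev]⟩

/-- a property that is stable under `ph` holds on the whole face -/
theorem face_ind {P : D → Prop} {q : F} (hP : ∀ d, M.fc d = q → P d → P (ph M d)) {d e : D}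
    (hd : M.fc d = q) (he : M.fc e = q) (h : P d) : P e := by
  have hs : (M.σ * M.α).SameCycle d e := (M.fc_iff d e).1 (hd.trans he.symm)
  obtain ⟨i, -, hi⟩ := hs.exists_pow_eq'
  have key : ∀ n : ℕ, M.fc (((M.σ * M.α) ^ n) d) = q ∧ P (((M.σ * M.α) ^ n) d) := by
    intro n
    induction n with
    | zero => exact ⟨hd, h⟩
    | succ n ih =>
      have e1 : ((M.σ * M.α) ^ (n + 1)) d = ph M (((M.σ * M.α) ^ n) d) := by
        rw [pow_succ']
        rfl
      rw [e1]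
      exact ⟨(fc_ph' _).trans ih.1, hP _ ih.1 ih.2⟩
  rw [← hi]
  exact (key i).2

end

/-- **Packet BONUS.** -/
theorem bonus (h1 : StmtConeAd) : StmtBonus := by
  intro K h V D E F E' F' _ _ _ _ _ _ L f M dE dW dU dN I M' y0 y1 c v₀ A Q hB hI s O hO hu
  obtain ⟨q0, hq0⟩ := hI
  rcases hB.start with ⟨-, e2, -, -⟩ | ⟨e1, e2, ⟨j, e3⟩, ⟨q, e4⟩, -, -⟩
  · exact absurd hq0 (e2 q0)
  obtain ⟨a1, a2, a3, -, -, -⟩ := h1 D V E F E' F' M I M' hB.cone
  have hF := hB.fire
  have hq : ∀ q' : {q : F // I q}, q' = q := fun q' =>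
    Subtype.ext (((e3 _).1 q'.2).trans ((e3 _).1 q.2).symm)
  have hA0 : A 0 = {Sum.inr q} := by rw [hF.zero, e4]
  -- a corner in `O`
  have hc1 : ∃ d, M.fc d = q.1 ∧ (Sum.inl (M.vt d) : VC V I) ∈ O := by
    obtain ⟨u, hu0, huO⟩ := hu
    obtain ⟨a, ha, had⟩ := hF.adjQ 0 u hu0
    rw [hA0, mem_singleton] at ha
    subst ha
    rcases u with v | q'
    · obtain ⟨d, hd, rfl⟩ := ((a2 q v).1).1 had
      exact ⟨d, hd, huO⟩
    · exact absurd had (a3 q q')
  -- a corner outside `O`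
  have hc2 : ∃ d, M.fc d = q.1 ∧ (Sum.inl (M.vt d) : VC V I) ∉ O := by
    obtain ⟨v, hv1, hv⟩ := hF.esc
    have hvO : v ∉ O := fun hvO =>
      (Finset.disjoint_left.1 (hF.disj s 1)) (hO.sub hvO) hv1
    rcases hF.new 0 v hv1 with h0 | ⟨a, ha, had⟩
    · rw [hF.zero, mem_singleton] at h0
      exact absurd h0 hv
    · rw [hA0, mem_singleton] at ha
      subst ha
      rcases v with v | q'
      · obtain ⟨d, hd, rfl⟩ := ((a2 q v).1).1 had
        exact ⟨d, hd, hvO⟩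
      · exact absurd had (a3 q q')
  obtain ⟨d1, hd1, hd1O⟩ := hc1
  obtain ⟨d2, hd2, hd2O⟩ := hc2
  have hx : ∃ d, M.fc d = q.1 ∧ (Sum.inl (M.vt d) : VC V I) ∈ O ∧
      (Sum.inl (M.vt (ph M d)) : VC V I) ∉ O := by
    by_contra hne
    push Not at hne
    exact hd2O (face_ind (P := fun d => (Sum.inl (M.vt d) : VC V I) ∈ O) hne hd1 hd2 hd1O)
  have hy : ∃ d, M.fc d = q.1 ∧ (Sum.inl (M.vt d) : VC V I) ∉ O ∧
      (Sum.inl (M.vt (ph M d)) : VC V I) ∈ O := by
    by_contra hne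
    push Not at hne
    exact (face_ind (P := fun d => (Sum.inl (M.vt d) : VC V I) ∉ O) hne hd2 hd1 hd2O) hd1O
  obtain ⟨x, hx1, hx2, hx3⟩ := hx
  obtain ⟨y, hy1, hy2, hy3⟩ := hy
  have hC := hB.cone
  have hIx : I (M.fc x) := by rw [hx1]; exact q.2
  have hIx' : I (M.fc (ph M x)) := by rw [fc_ph', hx1]; exact q.2
  have hIy : I (M.fc y) := by rw [hy1]; exact q.2
  have hIy' : I (M.fc (ph M y)) := by rw [fc_ph', hy1]; exact q.2
  have hqO : ∀ q' : {q : F // I q}, (Sum.inr q' : VC V I) ∉ O := by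
    intro q' hq'
    have := hO.sub hq'
    refine (Finset.disjoint_left.1 (hF.disj s 0)) this ?_
    rw [hA0, hq q', mem_singleton]
  have hqA : ∀ q' : {q : F // I q}, (Sum.inr q' : VC V I) ∈ A 0 := by
    intro q'
    rw [hA0, hq q', mem_singleton]
  have hlA : ∀ v : V, (Sum.inl v : VC V I) ∉ A 0 := by
    intro v
    rw [hA0, mem_singleton]
    exact Sum.inl_ne_inr
  unfold hf
  have hsub : ({Sum.inr (⟨ph M x, hIx'⟩, false), Sum.inr (⟨y, hIy⟩, true)} : Finset (DC M I)) ⊆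
      (bd M' O).filter fun d => ¬ (M'.vt d ∈ A 0 ↔ tg M' d ∈ A 0) := by
    intro d hd
    rw [mem_insert, mem_singleton] at hd
    rw [mem_filter]
    rcases hd with rfl | rfl
    · have t1 : M'.vt (Sum.inr (⟨ph M x, hIx'⟩, false)) = Sum.inl (M.vt (ph M x)) := hC.vf _
      have t2 : tg M' (Sum.inr (⟨ph M x, hIx'⟩, false)) = Sum.inr ⟨M.fc (ph M x), hIx'⟩ := by
        unfold tg
        rw [hC.ar]
        exact hC.vtr _
      refine ⟨?_, ?_⟩
      · unfold bd
        rw [mem_filter]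
        refine ⟨mem_univ _, ⟨Sum.inl x, ?_, ?_⟩, ?_, ?_⟩
        · exact (((hC.fi x hIx hIx') _).2 (Or.inr (Or.inl rfl))).symm
        · rw [hC.vl]; exact hx2
        · rw [t1]; exact hx3
        · rw [t2]; exact hqO _
      · rw [t1, t2]
        intro hh
        exact hlA _ (hh.2 (hqA _))
    · have t1 : M'.vt (Sum.inr (⟨y, hIy⟩, true)) = Sum.inr ⟨M.fc y, hIy⟩ := hC.vtr _
      have t2 : tg M' (Sum.inr (⟨y, hIy⟩, true)) = Sum.inl (M.vt y) := by
        unfold tg
        rw [hC.ar]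
        exact hC.vf _
      refine ⟨?_, ?_⟩
      · unfold bd
        rw [mem_filter]
        refine ⟨mem_univ _, ⟨Sum.inr (⟨ph M y, hIy'⟩, false), ?_, ?_⟩, ?_, ?_⟩
        · exact (((hC.fi y hIy hIy') _).2 (Or.inr (Or.inl rfl))).trans
            (((hC.fi y hIy hIy') _).2 (Or.inr (Or.inr rfl))).symm
        · rw [hC.vf]; exact hy3
        · rw [t1]; exact hqO _
        · rw [t2]; exact hy2
      · rw [t1, t2]
        intro hh
        exact hlA _ (hh.1 (hqA _))
  have hcard := card_le_card hsub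
  rw [card_pair] at hcard
  · convert hcard
  · intro hh
    have := (Prod.mk.inj (Sum.inr.inj hh)).2
    exact absurd this (by simp)

end Pool.Agent.Helper89.UB
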