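import Pool.Agent.Helper74.UB.Goals4

/-!
# UB, packet FLIPB
-/

namespace Pool.Agent.Helper89.UB

open Finset Equiv Helper28.VF Pool.Agent.Helper74.UB
open scoped Classical

/-- **Packet FLIPB.** -/
theorem flipb (h1 : StmtFlip) (h2 : StmtSq) : StmtFlipB := by
  intro K h V D E F E' F' _ _ _ _ _ _ L f M dE dW dU dN I M' y0 y1 c v₀ A Q hB
  obtain ⟨hH, hLM⟩ := h1 K h V L f hB.host
  refine ⟨hH, hLM D E F M dE dW dU dN hB.lm, hB.cone, hB.fire, ?_, ?_⟩
  · have := hB.rng
    omega
  · rcases hB.start with ⟨e1, e2, ⟨v, e3, e4⟩, e5⟩ | ⟨e1, e2, ⟨j, e3⟩, e4, e5, e6⟩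
    · left
      refine ⟨by omega, e2, ⟨v, e3, ?_⟩, e5⟩
      show (h : ℤ) - L.row v = h - y1
      omega
    · right
      have hr := hB.rng
      have hodd : Odd (h : ℤ) := by exact_mod_cast hB.host.hodd
      refine ⟨by omega, ?_, ⟨-j - 1, ?_⟩, e4, e5, e6⟩
      · obtain ⟨a, ha⟩ := hodd
        obtain ⟨b, hb⟩ := e2
        exact ⟨a - b, by omega⟩
      · intro q
        rw [e3 q]
        have hs := (h2 K h V D E F L f M dE dW dU dN hB.host hB.lm y0 j hr.1 (by omega) e2).2
          (dW (f (y0 + 1) j))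
        have hs' := hs.2 (Or.inr (Or.inr (Or.inl rfl)))
        have he : L.e.symm (flipF h f (h - y1) (-j - 1)) = f (y0 + 1) j := by
          obtain ⟨n, hn⟩ := Int.eq_ofNat_of_zero_le (show (0 : ℤ) ≤ y0 + 1 by omega)
          rw [Equiv.symm_apply_eq, hn, hB.host.flat.e n j (by omega) (by omega), ← hn]
          unfold flipF
          congr 1
          · omega
          · ring
        show q = M.fc (dE (f y0 j)) ↔ q = M.fc (dW (L.e.symm (flipF h f (h - y1) (-j - 1))))
        rw [he, hs']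

end Pool.Agent.Helper89.UB
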