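import Pool.Agent.Helper74.UB.Goals2

/-!
# UB, packet GROW
-/

namespace Pool.Agent.Helper89.UB

open Finset Equiv Helper28.VF Pool.Agent.Helper74.UB
open scoped Classical

variable {D V E F : Type} [Fintype D] [Fintype V] [Fintype E] [Fintype F] {M : PM D V E F}

theorem vt_ph (d : D) : M.vt (ph M d) = tg M d :=
  (M.vt_iff _ _).2 ⟨-1, by simp [ph]⟩

theorem fc_ph (d : D) : M.fc (ph M d) = M.fc d :=
  (M.fc_iff _ _).2 ⟨-1, by simp [ph, mul_inv_rev]⟩

/-- both ends of a boundary dart with one burning end burn in the next step -/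
theorem both {c : ℕ} {v₀ : V} {A Q : ℕ → Finset V} (hF : Fire M c v₀ A Q) {s t : ℕ} {O : Finset V}
    (hst : s ≤ t) (hO : IsComp M (Q t) O) {d : D} (hd : Bd M O d)
    (h : ¬ (M.vt d ∈ A s ↔ tg M d ∈ A s)) : M.vt d ∈ A (s + 1) ∧ tg M d ∈ A (s + 1) := by
  have hQ : Q s ⊆ Q t := monotone_nat_of_le_succ (fun n => hF.monoQ n) hst
  obtain ⟨⟨e, he, heO⟩, h1, h2⟩ := hd
  have key : ∀ v, (∃ e', M.fc d = M.fc e' ∧ M.vt e' = v) → v ∉ O → v ∉ Q s := by
    rintro v ⟨e', he', rfl⟩ hv hq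
    exact hv (hO.closed _ heO _ (hQ hq) ⟨e, e', he.trans he', rfl, rfl⟩)
  by_cases hu : M.vt d ∈ A s
  · have hw : tg M d ∉ A s := fun hw => h ⟨fun _ => hw, fun _ => hu⟩
    refine ⟨hF.mono s hu, ?_⟩
    rcases hF.spread s _ hu (tg M d) ⟨d, rfl, rfl⟩ with h3 | h3
    · exact h3
    · exact absurd h3 (key _ ⟨ph M d, (fc_ph d).symm, vt_ph d⟩ h2)
  · have hw : tg M d ∈ A s := by
      by_contra hw
      exact h ⟨fun h' => absurd h' hu, fun h' => absurd h' hw⟩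
    refine ⟨?_, hF.mono s hw⟩
    rcases hF.spread s _ hw (M.vt d) ⟨M.α d, rfl, by unfold tg; rw [M.α_inv]⟩ with h3 | h3
    · exact h3
    · exact absurd h3 (key _ ⟨d, rfl, rfl⟩ h1)

/-- **Packet GROW.** -/
theorem grow : StmtGrow := by
  intro D V E F _ _ _ _ M c v₀ A Q hF s t O hst hO
  unfold be hf
  rw [← card_union_of_disjoint]
  · refine card_le_card ?_
    intro d hd
    rw [mem_union, mem_filter, mem_filter] at hd
    rw [mem_filter]
    rcases hd with ⟨h1, h2, h3⟩ | ⟨h1, h2⟩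
    · exact ⟨h1, hF.mono s h2, hF.mono s h3⟩
    · exact ⟨h1, both hF hst hO (mem_filter.1 h1).2 h2⟩
  · rw [disjoint_left]
    intro d hd hd'
    exact (mem_filter.1 hd').2 ⟨fun _ => (mem_filter.1 hd).2.2, fun _ => (mem_filter.1 hd).2.1⟩

end Pool.Agent.Helper89.UB
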